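import Pool.Agent.Q275.RS.Jac
import Pool.Agent.H180.RS.Stmts

/-!
# The product formula of Davenport and Hasse over prime fields
-/

set_option autoImplicit false

namespace Pool.Agent.Q275.RS

open Finset Pool.Agent.H916K

section Group

variable {G : Type} [CommGroup G] {ω : G} {p n : ℕ}

lemma pow_theta (hω : orderOf ω = p * n) (a j : ℕ) : ω ^ (a + (j % p) * n) = ω ^ (a + j * n) := by
  rw [pow_eq_pow_iff_modEq, hω]
  apply Nat.ModEq.add_left
  rw [mul_comm p n, mul_comm _ n, mul_comm _ n]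
  exact Nat.ModEq.mul_left' n (Nat.mod_modEq j p)

lemma prod_coset (hω : orderOf ω = p * n) (hgen : ∀ x : G, ∃ c : ℕ, ω ^ c = x) (hp : 0 < p)
    (hn : 0 < n) {η : G} (hη : orderOf η = p) (c : ℕ) (F : G → ℂ) :
    ∏ i ∈ range p, F (ω ^ c * η ^ i) = ∏ j ∈ range p, F (ω ^ (c % n + j * n)) := by
  classical
  obtain ⟨e, he⟩ := hgen η
  have hne : n ∣ e := by
    have h1 : ω ^ (e * p) = 1 := by rw [pow_mul, he, ← hη, pow_orderOf_eq_one]
    have h2 := orderOf_dvd_of_pow_eq_one h1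
    rw [hω, mul_comm p n] at h2
    exact Nat.dvd_of_mul_dvd_mul_right hp h2
  obtain ⟨t, rfl⟩ := hne
  have inj1 : Set.InjOn (fun i : ℕ => ω ^ c * η ^ i) (range p : Set ℕ) := by
    intro i hi j hj hij
    simp only [coe_range, Set.mem_Iio] at hi hj
    have h1 : η ^ i = η ^ j := mul_left_cancel hij
    rw [pow_eq_pow_iff_modEq, hη] at h1
    have h2 : i % p = j % p := h1
    rwa [Nat.mod_eq_of_lt hi, Nat.mod_eq_of_lt hj] at h2
  have inj2 : Set.InjOn (fun j : ℕ => ω ^ (c % n + j * n)) (range p : Set ℕ) := by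
    intro i hi j hj hij
    simp only [coe_range, Set.mem_Iio] at hi hj
    have h1 : ω ^ (c % n + i * n) = ω ^ (c % n + j * n) := hij
    rw [pow_eq_pow_iff_modEq, hω] at h1
    have h2 : i * n ≡ j * n [MOD p * n] := Nat.ModEq.add_left_cancel' _ h1
    have h3 : i ≡ j [MOD p] := Nat.ModEq.mul_right_cancel' hn.ne' h2
    have h4 : i % p = j % p := h3
    rwa [Nat.mod_eq_of_lt hi, Nat.mod_eq_of_lt hj] at h4
  have himg : (range p).image (fun i : ℕ => ω ^ c * η ^ i) =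
      (range p).image (fun j : ℕ => ω ^ (c % n + j * n)) := by
    apply Finset.eq_of_subset_of_card_le
    · intro x hx
      obtain ⟨i, _, rfl⟩ := mem_image.mp hx
      refine mem_image.mpr ⟨(c / n + t * i) % p, mem_range.mpr (Nat.mod_lt _ hp), ?_⟩
      rw [pow_theta hω, ← he, ← pow_mul, ← pow_add]
      congr 1
      have := Nat.mod_add_div c n
      calc c % n + (c / n + t * i) * n = (c % n + n * (c / n)) + n * t * i := by ring
        _ = _ := by rw [this]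
    · rw [card_image_of_injOn inj1]
      exact card_image_le
  rw [← prod_image (f := F) (g := fun i : ℕ => ω ^ c * η ^ i) inj1, himg, prod_image inj2]

end Group

section Cx

variable {ℓ : ℕ} [Fact ℓ.Prime]

lemma exists_pow {ω : MulChar (ZMod ℓ) ℂ} (hω : orderOf ω = ℓ - 1) (χ : MulChar (ZMod ℓ) ℂ) :
    ∃ c : ℕ, ω ^ c = χ := by
  classical
  have hℓ : ℓ.Prime := Fact.out
  have hℓ2 := hℓ.two_le
  have : NeZero (ℓ - 1) := ⟨by omega⟩
  obtain ⟨g, hg⟩ := IsCyclic.exists_generator (α := (ZMod ℓ)ˣ)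
  have hprim : IsPrimitiveRoot (ω (g : ZMod ℓ)) (ℓ - 1) := by
    refine ⟨mulChar_pow_one hω g.ne_zero, ?_⟩
    intro m hm
    rw [← hω]
    apply orderOf_dvd_of_pow_eq_one
    rw [MulChar.eq_iff hg, mulChar_pow_apply ω m g.ne_zero, hm, MulChar.one_apply_coe]
  have h1 : χ (g : ZMod ℓ) ^ (ℓ - 1) = 1 := by
    rw [← map_pow, ZMod.pow_card_sub_one_eq_one g.ne_zero, map_one]
  obtain ⟨c, _, hc⟩ := hprim.eq_pow_of_pow_eq_one h1
  refine ⟨c, ?_⟩
  rw [MulChar.eq_iff hg, mulChar_pow_apply ω c g.ne_zero, hc]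

lemma norm_jacobi {χ φ : MulChar (ZMod ℓ) ℂ} (hχ : χ ≠ 1) (hφ : φ ≠ 1) (hχφ : χ * φ ≠ 1) :
    ‖jacobiSum χ φ‖ = Real.sqrt ℓ := by
  have hℓ : ℓ.Prime := Fact.out
  have h0 : ringChar ℂ ≠ ringChar (ZMod ℓ) := by
    rw [ringChar.eq_zero (R := ℂ), ZMod.ringChar_zmod_n]
    exact hℓ.ne_zero.symm
  have h1 := jacobiSum_mul_jacobiSum_inv h0 hχ hφ hχφ
  have h2 : jacobiSum χ⁻¹ φ⁻¹ = (starRingEnd ℂ) (jacobiSum χ φ) := by
    unfold jacobiSum
    rw [map_sum]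
    refine sum_congr rfl fun x _ => ?_
    rw [map_mul, ← MulChar.star_apply', ← MulChar.star_apply']
    rfl
  rw [h2, Complex.mul_conj, ZMod.card] at h1
  have h3 : Complex.normSq (jacobiSum χ φ) = ℓ := by exact_mod_cast h1
  rw [← h3, Complex.normSq_eq_norm_sq, Real.sqrt_sq (norm_nonneg _)]

/-- nontrivial powers and the two products of Jacobi sums -/
lemma norms {ω : MulChar (ZMod ℓ) ℂ} (hω : orderOf ω = ℓ - 1) {p n a : ℕ}
    (hpn : p * n = ℓ - 1) (hp : 1 < p) (ha : 0 < a) (han : a < n) :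
    ‖∏ j ∈ Ico 1 p, jacobiSum (ω ^ a) (ω ^ (j * n))‖ = Real.sqrt ℓ ^ (p - 1) ∧
    ‖∏ i ∈ Ico 1 p, jacobiSum (ω ^ a) (ω ^ (i * a))‖ = Real.sqrt ℓ ^ (p - 1) := by
  have hne : ∀ m : ℕ, 0 < m → m < ℓ - 1 → ω ^ m ≠ 1 := by
    intro m hm1 hm2
    exact pow_ne_one_of_lt_orderOf hm1.ne' (by rw [hω]; exact hm2)
  have hpa : p * a < ℓ - 1 := by
    rw [← hpn]; exact Nat.mul_lt_mul_of_pos_left han (by omega)
  have hbj : ∀ b ≤ n, 0 < b → ∀ j ∈ Ico 1 p, a + j * b < ℓ - 1 := by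
    intro b hb hb0 j hj
    rw [mem_Ico] at hj
    have h5 : (j + 1) * n ≤ p * n := Nat.mul_le_mul_right n (by omega)
    have h6 : (j + 1) * n = j * n + n := by ring
    have h7 : j * b ≤ j * n := Nat.mul_le_mul_left j hb
    omega
  have key : ∀ b ≤ n, 0 < b → ‖∏ j ∈ Ico 1 p, jacobiSum (ω ^ a) (ω ^ (j * b))‖ =
      Real.sqrt ℓ ^ (p - 1) := by
    intro b hb hb0
    rw [norm_prod]
    have h1 : ∀ j ∈ Ico 1 p, ‖jacobiSum (ω ^ a) (ω ^ (j * b))‖ = Real.sqrt ℓ := by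
      intro j hj
      have h2 := hbj b hb hb0 j hj
      have h3 := mem_Ico.mp hj
      have h4 : 0 < j * b := Nat.mul_pos (by omega) hb0
      refine norm_jacobi (hne _ ha (by omega)) (hne _ h4 (by omega)) ?_
      rw [← pow_add]
      exact hne _ (by omega) h2
    rw [prod_congr rfl h1, prod_const, Nat.card_Ico]
  exact ⟨key n le_rfl (by omega), key a han.le ha⟩

end Cx

/-- integrality can be checked at the prime ideals above `ℓ` -/
lemma integral_of_local {ℓ : ℕ} (hℓ : ℓ.Prime) (z : ℂ) (N : ℕ)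
    (h1 : IsIntegral ℤ ((ℓ : ℂ) ^ N * z))
    (h2 : ∀ (k : Type) [Field k] [CharP k ℓ] (φ : AI →+* k), ∃ A B : AI,
      z * (B : ℂ) = A ∧ φ B ≠ 0) : IsIntegral ℤ z := by
  let I : Ideal AI :=
    { carrier := {y | IsIntegral ℤ ((y : ℂ) * z)}
      add_mem' := by
        intro a b ha hb
        simp only [Set.mem_ofPred_eq] at ha hb ⊢
        push_cast
        rw [add_mul]
        exact ha.add hb
      zero_mem' := by
        simp only [Set.mem_ofPred_eq]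
        push_cast
        rw [zero_mul]
        exact isIntegral_zero
      smul_mem' := by
        intro c y hy
        simp only [Set.mem_ofPred_eq] at hy ⊢
        rw [smul_eq_mul]
        push_cast
        rw [mul_assoc]
        exact c.2.mul hy }
  have hmem : ∀ y : AI, y ∈ I ↔ IsIntegral ℤ ((y : ℂ) * z) := fun y => Iff.rfl
  by_cases hI : I = ⊤
  · have h3 : (1 : AI) ∈ I := by rw [hI]; exact Submodule.mem_top
    rw [hmem] at h3
    simpa using h3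
  · exfalso
    obtain ⟨M, hM, hIM⟩ := Ideal.exists_le_maximal I hI
    have hℓN : ((ℓ : AI)) ^ N ∈ I := by
      rw [hmem]
      push_cast
      exact h1
    have hℓM : (ℓ : AI) ∈ M := hM.isPrime.mem_of_pow_mem N (hIM hℓN)
    let _ : Field (AI ⧸ M) := Ideal.Quotient.field M
    have hchar : CharP (AI ⧸ M) ℓ := by
      apply (CharP.charP_iff_prime_eq_zero hℓ).mpr
      have h3 := Ideal.Quotient.eq_zero_iff_mem.mpr hℓM
      simpa using h3
    obtain ⟨A, B, hAB, hB⟩ := h2 (AI ⧸ M) (Ideal.Quotient.mk M)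
    apply hB
    rw [Ideal.Quotient.eq_zero_iff_mem]
    apply hIM
    rw [hmem, mul_comm, hAB]
    exact A.2

section Rel

variable {ℓ : ℕ} [Fact ℓ.Prime]

lemma relation {ω : MulChar (ZMod ℓ) ℂ} (hω : orderOf ω = ℓ - 1) {p n : ℕ} (hpn : p * n = ℓ - 1)
    (hp : 1 < p) {χ η : MulChar (ZMod ℓ) ℂ} (hη : orderOf η = p) (hχ : χ ^ p ≠ 1)
    {ψ : AddChar (ZMod ℓ) ℂ} (hψ : ψ ≠ 1) :
    ∃ a : ℕ, 0 < a ∧ a < n ∧ χ ^ p = ω ^ (p * a) ∧
      (∏ i ∈ range p, gaussSum (χ * η ^ i) ψ) *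
          ∏ j ∈ Ico 1 p, jacobiSum (ω ^ a) (ω ^ (j * n)) =
        (∏ i ∈ Ico 1 p, jacobiSum (ω ^ a) (ω ^ (i * a))) *
          (gaussSum (χ ^ p) ψ * ∏ i ∈ Ico 1 p, gaussSum (η ^ i) ψ) := by
  have hℓ : ℓ.Prime := Fact.out
  have hℓ2 := hℓ.two_le
  have hn0 : 0 < n := by
    apply Nat.pos_of_ne_zero
    rintro rfl
    omega
  obtain ⟨c, rfl⟩ := exists_pow hω χ
  have hωp : orderOf ω = p * n := by rw [hω, hpn]
  have hpow : (ω ^ c) ^ p = ω ^ (p * (c % n)) := by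
    rw [← pow_mul, pow_eq_pow_iff_modEq, hωp, mul_comm c p]
    exact (Nat.ModEq.mul_left' p (Nat.mod_modEq c n)).symm
  have ha : 0 < c % n := by
    apply Nat.pos_of_ne_zero
    intro h0
    apply hχ
    rw [hpow, h0, mul_zero, pow_zero]
  refine ⟨c % n, ha, Nat.mod_lt _ hn0, hpow, ?_⟩
  have h1 := prod_coset hωp (exists_pow hω) (by omega) hn0 hη c (fun x => gaussSum x ψ)
  have h2 := prod_coset hωp (exists_pow hω) (by omega) hn0 hη 0 (fun x => gaussSum x ψ)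
  simp only [pow_zero, one_mul, Nat.zero_mod, zero_add] at h2
  rw [range_eq_Ico, prod_eq_prod_Ico_succ_bot (by omega : 0 < p),
    prod_eq_prod_Ico_succ_bot (by omega : 0 < p)] at h2
  simp only [pow_zero, zero_mul, zero_add] at h2
  have hg1 : gaussSum (1 : MulChar (ZMod ℓ) ℂ) ψ ≠ 0 := by
    rw [gaussSum_one_left hψ]
    exact neg_ne_zero.mpr one_ne_zero
  have h3 := mul_left_cancel₀ hg1 h2
  have h4 := ident hω hpn hp ha (Nat.mod_lt _ hn0) ψ
  rw [h1, h4, h3, hpow, mul_assoc]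

lemma gauss_ne {χ : MulChar (ZMod ℓ) ℂ} (hχ : χ ≠ 1) {ψ : AddChar (ZMod ℓ) ℂ} (hψ : ψ ≠ 1) :
    gaussSum χ ψ ≠ 0 := by
  have hℓ : ℓ.Prime := Fact.out
  refine gaussSum_ne_zero_of_nontrivial ?_ hχ (AddChar.IsPrimitive.of_ne_one hψ)
  rw [ZMod.card]
  exact_mod_cast hℓ.ne_zero

omit [Fact ℓ.Prime] in
lemma order_comp {R : Type} [CommRing R] [IsDomain R] {f : R →+* ℂ} (hf : Function.Injective f)
    {ω : MulChar (ZMod ℓ) R} (hω : orderOf ω = ℓ - 1) : orderOf (ω.ringHomComp f) = ℓ - 1 := by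
  rw [← hω]
  exact orderOf_injective (MulChar.ringHomCompHom f) (MulChar.injective_ringHomComp hf) ω

lemma comp_prod {R : Type} [CommRing R] (f : R →+* ℂ) (ω : MulChar (ZMod ℓ) R) (a b p : ℕ) :
    ∏ j ∈ Ico 1 p, jacobiSum ((ω.ringHomComp f) ^ a) ((ω.ringHomComp f) ^ (j * b)) =
      f (∏ j ∈ Ico 1 p, jacobiSum (ω ^ a) (ω ^ (j * b))) := by
  rw [map_prod]
  refine prod_congr rfl fun j _ => ?_
  rw [MulChar.ringHomComp_pow, MulChar.ringHomComp_pow, jacobiSum_ringHomComp]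

lemma rel_AI {k : Type} [Field k] [CharP k ℓ] (φ : AI →+* k) {p n : ℕ} (hpn : p * n = ℓ - 1)
    (hp : 1 < p) {χ η : MulChar (ZMod ℓ) ℂ} (hη : orderOf η = p) (hχ : χ ^ p ≠ 1)
    {ψ : AddChar (ZMod ℓ) ℂ} (hψ : ψ ≠ 1) :
    ∃ A B : AI, (χ ^ p) (p : ZMod ℓ) * (∏ i ∈ range p, gaussSum (χ * η ^ i) ψ) * (B : ℂ) =
        A * (gaussSum (χ ^ p) ψ * ∏ i ∈ Ico 1 p, gaussSum (η ^ i) ψ) ∧
      φ B ≠ 0 ∧ φ A = φ B ∧ ‖(B : ℂ)‖ = Real.sqrt ℓ ^ (p - 1) := by
  have hℓ : ℓ.Prime := Fact.out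
  have hℓ2 := hℓ.two_le
  obtain ⟨ω, hω, hωφ⟩ := exists_teich (ℓ := ℓ) φ
  have hinj : Function.Injective (algebraMap AI ℂ) := Subtype.val_injective
  have hωc := order_comp hinj hω
  obtain ⟨a, ha, han, hχa, hrel⟩ := relation hωc hpn hp hη hχ hψ
  have hpℓ : p < ℓ := by
    have : p * 1 ≤ p * n := Nat.mul_le_mul_left p (by omega)
    omega
  obtain ⟨hB, hAB⟩ := red_main φ hωφ hpn hp hpℓ ha han
  refine ⟨(ω ^ (p * a)) (p : ZMod ℓ) * ∏ i ∈ Ico 1 p, jacobiSum (ω ^ a) (ω ^ (i * a)),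
    ∏ j ∈ Ico 1 p, jacobiSum (ω ^ a) (ω ^ (j * n)), ?_, hB, ?_, ?_⟩
  · rw [comp_prod, comp_prod] at hrel
    rw [mul_assoc]
    have h1 : (χ ^ p) (p : ZMod ℓ) = algebraMap AI ℂ ((ω ^ (p * a)) (p : ZMod ℓ)) := by
      rw [hχa, MulChar.ringHomComp_pow, MulChar.ringHomComp_apply]
    rw [h1]
    have h2 : ∀ x : AI, ((x : AI) : ℂ) = algebraMap AI ℂ x := fun _ => rfl
    rw [h2, h2, hrel, map_mul, mul_assoc]
  · rw [map_mul, mul_comm, hAB]
  · have h2 : ∀ x : AI, ((x : AI) : ℂ) = algebraMap AI ℂ x := fun _ => rfl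
    rw [h2, ← comp_prod]
    exact (norms hωc hpn hp ha han).1

end Rel

lemma exists_cyc (n : ℕ) [NeZero n] : ∃ (K : Type) (_ : Field K) (_ : NumberField K),
    IsCyclotomicExtension {n} ℚ K := by
  refine ⟨CyclotomicField n ℚ, inferInstance, inferInstance, ?_⟩
  convert CyclotomicField.isCyclotomicExtension n ℚ
  · rfl
  · exact Subsingleton.elim _ _

/-- **The product formula of Davenport and Hasse** over the field with `ℓ` elements. -/
theorem dh : Pool.Agent.H180.RS.PropDH := by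
  intro ℓ p hF hp hp2 hpd χ η ψ hψ hη hχp
  have hℓ : ℓ.Prime := hF.out
  have hℓ2 := hℓ.two_le
  obtain ⟨n, hn⟩ := hpd
  have hpn : p * n = ℓ - 1 := hn.symm
  have hp1 : 1 < p := hp.one_lt
  have hn0 : 0 < n := by
    apply Nat.pos_of_ne_zero
    rintro rfl
    omega
  have hp3 : 3 ≤ p := by
    rcases Nat.lt_or_ge p 3 with h | h
    · omega
    · exact h
  have hℓ4 : 3 < ℓ := by
    have : 3 * 1 ≤ p * n := Nat.mul_le_mul hp3 hn0
    omega
  set X := ∏ i ∈ range p, gaussSum (χ * η ^ i) ψ with hX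
  set Y := gaussSum (χ ^ p) ψ * ∏ i ∈ Ico 1 p, gaussSum (η ^ i) ψ with hYdef
  have hY : Y ≠ 0 := by
    apply mul_ne_zero (gauss_ne hχp hψ)
    rw [prod_ne_zero_iff]
    intro i hi
    rw [mem_Ico] at hi
    refine gauss_ne ?_ hψ
    exact pow_ne_one_of_lt_orderOf (by omega) (by rw [hη]; exact hi.2)
  set w := (χ ^ p) (p : ZMod ℓ) with hw
  have hp0 : (p : ZMod ℓ) ≠ 0 := by
    rw [Ne, CharP.cast_eq_zero_iff (ZMod ℓ) ℓ]
    intro h
    have h1 := Nat.le_of_dvd (by omega) h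
    have : p * 1 ≤ p * n := Nat.mul_le_mul_left p (by omega)
    omega
  have hwpow : w ^ (ℓ - 1) = 1 := by
    rw [hw, ← map_pow, ZMod.pow_card_sub_one_eq_one hp0, map_one]
  have hw0 : w ≠ 0 := by
    intro h0
    rw [h0, zero_pow (by omega)] at hwpow
    exact zero_ne_one hwpow
  set z := w * X / Y with hz
  have hzY : z * Y = w * X := by rw [hz]; field_simp
  -- one residue map
  obtain ⟨k0, _, _, ⟨φ0⟩⟩ := exists_red hℓ
  obtain ⟨A0, B0, hAB0, hB0, hφ0, hnorm0⟩ := rel_AI φ0 hpn hp1 hη hχp hψ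
  rw [← hX, ← hYdef, ← hw] at hAB0
  have hzB : ∀ A B : AI, w * X * (B : ℂ) = A * Y → z * (B : ℂ) = A := by
    intro A B h
    apply mul_right_cancel₀ hY
    rw [← h, ← hzY]; ring
  -- integrality
  have hzint : IsIntegral ℤ z := by
    apply integral_of_local hℓ z (p - 1)
    · have h1 : (ℓ : ℂ) ^ (p - 1) * z = A0 * (starRingEnd ℂ) (B0 : ℂ) := by
        have h2 : (ℓ : ℂ) ^ (p - 1) = B0 * (starRingEnd ℂ) (B0 : ℂ) := by
          rw [Complex.mul_conj, Complex.normSq_eq_norm_sq, hnorm0, ← pow_mul, mul_comm (p - 1) 2,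
            pow_mul, Real.sq_sqrt (Nat.cast_nonneg ℓ)]
          push_cast; rfl
        rw [h2, ← hzB A0 B0 hAB0]; ring
      rw [h1]
      refine A0.2.mul ?_
      exact IsIntegral.map ((starRingEnd ℂ : ℂ →+* ℂ).toIntAlgHom) B0.2
    · intro k _ _ φ
      obtain ⟨A, B, hAB, hB, _, _⟩ := rel_AI φ hpn hp1 hη hχp hψ
      exact ⟨A, B, hzB A B hAB, hB⟩
  -- the cyclotomic field
  have hne : NeZero (ℓ - 1) := ⟨by omega⟩
  obtain ⟨E, _, _, hcyc⟩ := exists_cyc (ℓ - 1)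
  obtain ⟨ωE, hωE⟩ := MulChar.exists_mulChar_orderOf (ZMod ℓ) (n := ℓ - 1)
    (by rw [ZMod.card]) (IsCyclotomicExtension.zeta_spec (ℓ - 1) ℚ E)
  obtain ⟨ι⟩ : Nonempty (E →+* ℂ) := inferInstance
  obtain ⟨a, ha, han, hχa, hrel⟩ := relation (order_comp ι.injective hωE) hpn hp1 hη hχp hψ
  rw [← hX, ← hYdef] at hrel
  set s : E := (ωE ^ (p * a)) (p : ZMod ℓ) *
    (∏ i ∈ Ico 1 p, jacobiSum (ωE ^ a) (ωE ^ (i * a))) /
      ∏ j ∈ Ico 1 p, jacobiSum (ωE ^ a) (ωE ^ (j * n)) with hs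
  have hτs : ∀ τ : E →+* ℂ, τ s =
      ((ωE.ringHomComp τ) ^ (p * a)) (p : ZMod ℓ) *
        (∏ i ∈ Ico 1 p, jacobiSum ((ωE.ringHomComp τ) ^ a) ((ωE.ringHomComp τ) ^ (i * a))) /
      ∏ j ∈ Ico 1 p, jacobiSum ((ωE.ringHomComp τ) ^ a) ((ωE.ringHomComp τ) ^ (j * n)) := by
    intro τ
    rw [comp_prod, comp_prod, hs, map_div₀, map_mul, MulChar.ringHomComp_pow,
      MulChar.ringHomComp_apply]
  have hsq : Real.sqrt ℓ ^ (p - 1) ≠ 0 := by
    apply pow_ne_zero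
    rw [Ne, Real.sqrt_eq_zero (Nat.cast_nonneg ℓ)]
    exact_mod_cast hℓ.ne_zero
  have hιs : ι s = z := by
    have h1 := (norms (order_comp ι.injective hωE) hpn hp1 ha han).1
    have h2 : ∏ j ∈ Ico 1 p, jacobiSum ((ωE.ringHomComp ι) ^ a)
        ((ωE.ringHomComp ι) ^ (j * n)) ≠ 0 := by
      intro h0
      rw [h0, norm_zero] at h1
      exact hsq h1.symm
    rw [hτs, ← hχa, ← hw, hz, div_eq_div_iff h2 hY, mul_assoc, mul_assoc, ← hrel]
  have hsint : IsIntegral ℤ s := by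
    rw [← hιs] at hzint
    exact (isIntegral_algHom_iff ι.toIntAlgHom ι.injective).mp hzint
  obtain ⟨N, hN, hsN⟩ := NumberField.Embeddings.pow_eq_one_of_norm_eq_one
    E ℂ hsint (by
      intro τ
      have h1 := norms (order_comp τ.injective hωE) hpn hp1 ha han
      rw [hτs, norm_div, norm_mul, h1.1, h1.2]
      have h2 : ‖((ωE.ringHomComp τ) ^ (p * a)) (p : ZMod ℓ)‖ = 1 := by
        apply Complex.norm_eq_one_of_pow_eq_one (n := ℓ - 1) _ (by omega)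
        rw [← map_pow, ZMod.pow_card_sub_one_eq_one hp0, map_one]
      rw [h2, one_mul, div_self hsq])
  have ho : 0 < orderOf s := orderOf_pos_iff.mpr (isOfFinOrder_iff_pow_eq_one.mpr ⟨N, hN, hsN⟩)
  have hprim : IsPrimitiveRoot s (orderOf s) := IsPrimitiveRoot.orderOf s
  have hdvd := hprim.dvd_of_isCyclotomicExtension (ℓ - 1) ho.ne'
  have hprimz : IsPrimitiveRoot z (orderOf s) := by
    rw [← hιs]
    exact hprim.map_of_injective ι.injective
  set zA : AI := ⟨z, hzint⟩ with hzA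
  have hinj : Function.Injective (algebraMap AI ℂ) := Subtype.val_injective
  have hprimA : IsPrimitiveRoot zA (orderOf s) :=
    IsPrimitiveRoot.of_map_of_injective (f := algebraMap AI ℂ) hprimz hinj
  have hφ1 : φ0 zA = 1 := by
    have h1 : zA * B0 = A0 := Subtype.ext (hzB A0 B0 hAB0)
    have h2 := congrArg φ0 h1
    rw [map_mul, hφ0] at h2
    exact mul_right_cancel₀ hB0 (by rw [h2, one_mul])
  have hok : ((orderOf s : ℕ) : k0) ≠ 0 := by
    rw [Ne, CharP.cast_eq_zero_iff k0 ℓ]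
    intro h
    have h1 : ℓ ∣ 2 * (ℓ - 1) := h.trans hdvd
    rcases hℓ.dvd_mul.mp h1 with h2 | h2
    · have := Nat.le_of_dvd (by norm_num) h2
      omega
    · have := Nat.le_of_dvd (by omega) h2
      omega
  have ho1 : orderOf s = 1 := by
    have : NeZero ((orderOf s : ℕ) : k0) := ⟨hok⟩
    have h2 : NeZero ((orderOf s : ℕ) : AI) := ⟨by exact_mod_cast ho.ne'⟩
    have h3 : (Polynomial.cyclotomic (orderOf s) AI).IsRoot zA :=
      Polynomial.isRoot_cyclotomic_iff.mpr hprimA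
    have h4 := h3.map (f := φ0)
    rw [Polynomial.map_cyclotomic, Polynomial.isRoot_cyclotomic_iff, hφ1] at h4
    have h5 := h4.eq_orderOf
    rw [orderOf_one] at h5
    exact h5
  have hz1 : z = 1 := by
    rw [← hιs, orderOf_eq_one_iff.mp ho1, map_one]
  rw [hz1, one_mul] at hzY
  rw [MulChar.inv_apply_eq_inv', ← hw, mul_assoc, ← hYdef, hzY]
  field_simp

end Pool.Agent.Q275.RS
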