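import Pool.Agent.H916K.Stick

/-!
# Jacobi sums of powers of the Teichmueller character: reductions and an identity
-/

set_option autoImplicit false

namespace Pool.Agent.Q275.RS

open Finset Pool.Agent.H916K

section Alg

variable {ℓ : ℕ} [Fact ℓ.Prime] {R : Type} [CommRing R] [IsDomain R]

theorem ident {ω : MulChar (ZMod ℓ) R} (hω : orderOf ω = ℓ - 1) {p n a : ℕ}
    (hpn : p * n = ℓ - 1) (hp : 1 < p) (ha : 0 < a) (han : a < n) (ψ : AddChar (ZMod ℓ) R) :
    (∏ j ∈ range p, gaussSum (ω ^ (a + j * n)) ψ) *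
        ∏ j ∈ Ico 1 p, jacobiSum (ω ^ a) (ω ^ (j * n)) =
      (∏ i ∈ Ico 1 p, jacobiSum (ω ^ a) (ω ^ (i * a))) * gaussSum (ω ^ (p * a)) ψ *
        ∏ j ∈ Ico 1 p, gaussSum (ω ^ (j * n)) ψ := by
  have hne : ∀ m : ℕ, 0 < m → m < ℓ - 1 → ω ^ m ≠ 1 := by
    intro m hm1 hm2
    exact pow_ne_one_of_lt_orderOf hm1.ne' (by rw [hω]; exact hm2)
  have hpa : p * a < ℓ - 1 := by
    rw [← hpn]; exact Nat.mul_lt_mul_of_pos_left han (by omega)
  have h1 : ∀ m : ℕ, 1 ≤ m → m ≤ p → gaussSum (ω ^ a) ψ ^ m =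
      (∏ i ∈ Ico 1 m, jacobiSum (ω ^ a) (ω ^ (i * a))) * gaussSum (ω ^ (m * a)) ψ := by
    intro m hm
    induction m, hm using Nat.le_induction with
    | base => intro _; simp
    | succ m hm ih =>
      intro hmp
      have h2 := ih (by omega)
      have h3 : ω ^ a * ω ^ (m * a) ≠ 1 := by
        rw [← pow_add, show a + m * a = (m + 1) * a by ring]
        apply hne _ (by positivity)
        exact lt_of_le_of_lt (Nat.mul_le_mul_right a hmp) hpa
      have h4 := jacobiSum_mul_nontrivial h3 ψ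
      rw [← pow_add, show a + m * a = (m + 1) * a by ring] at h4
      rw [pow_succ, h2, prod_Ico_succ_top hm]
      calc _ = (∏ i ∈ Ico 1 m, jacobiSum (ω ^ a) (ω ^ (i * a))) *
            (gaussSum (ω ^ a) ψ * gaussSum (ω ^ (m * a)) ψ) := by ring
        _ = _ := by rw [← h4]; ring
  have h2 : (∏ j ∈ Ico 1 p, gaussSum (ω ^ (a + j * n)) ψ) *
        ∏ j ∈ Ico 1 p, jacobiSum (ω ^ a) (ω ^ (j * n)) =
      gaussSum (ω ^ a) ψ ^ (p - 1) * ∏ j ∈ Ico 1 p, gaussSum (ω ^ (j * n)) ψ := by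
    rw [← prod_mul_distrib]
    have h3 : ∀ j ∈ Ico 1 p, gaussSum (ω ^ (a + j * n)) ψ * jacobiSum (ω ^ a) (ω ^ (j * n)) =
        gaussSum (ω ^ a) ψ * gaussSum (ω ^ (j * n)) ψ := by
      intro j hj
      rw [mem_Ico] at hj
      rw [pow_add]
      apply jacobiSum_mul_nontrivial
      rw [← pow_add]
      apply hne _ (by positivity)
      have h5 : (j + 1) * n ≤ p * n := Nat.mul_le_mul_right n (by omega)
      have h6 : (j + 1) * n = j * n + n := by ring
      omega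
    rw [prod_congr rfl h3, prod_mul_distrib, prod_const, Nat.card_Ico]
  have h3 := h1 p (by omega) le_rfl
  have h4 : (∏ j ∈ range p, gaussSum (ω ^ (a + j * n)) ψ) =
      gaussSum (ω ^ a) ψ * ∏ j ∈ Ico 1 p, gaussSum (ω ^ (a + j * n)) ψ := by
    rw [range_eq_Ico, prod_eq_prod_Ico_succ_bot (by omega : 0 < p)]
    simp
  rw [h4, ← h3, mul_assoc, h2, ← mul_assoc, ← pow_succ', Nat.sub_add_cancel (by omega)]

end Alg

lemma prod_blocks {R : Type} [CommRing R] (f : ℕ → R) (b c : ℕ) :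
    ∏ m ∈ range (b * c), f m = ∏ i ∈ range b, ∏ j ∈ range c, f (i * c + j) := by
  induction b with
  | zero => simp
  | succ b ih =>
    rw [Nat.add_mul, one_mul, prod_range_add, ih, prod_range_succ]

section Red

variable {ℓ : ℕ} [Fact ℓ.Prime] {k : Type} [Field k] [CharP k ℓ]

lemma fact_ne {m : ℕ} (hm : m < ℓ) : ((m.factorial : ℕ) : k) ≠ 0 := by
  rw [Ne, CharP.cast_eq_zero_iff k ℓ, (Fact.out : ℓ.Prime).dvd_factorial]
  omega

lemma choose_ne {a b : ℕ} (h : a + b < ℓ) : (((a + b).choose a : ℕ) : k) ≠ 0 := by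
  intro h0
  have h1 := Nat.add_choose_mul_factorial_mul_factorial a b
  have h2 : (((a + b).factorial : ℕ) : k) = 0 := by
    rw [← h1, ← Nat.choose_symm_add]; push_cast; rw [h0]; ring
  exact fact_ne h h2

/-- `a! * binom (a + m) a` as a product -/
lemma asc (m a : ℕ) : ((a.factorial : ℕ) : k) * (((a + m).choose a : ℕ) : k) =
    ∏ x ∈ range a, ((m : k) + 1 + x) := by
  have h1 := Nat.ascFactorial_eq_factorial_mul_choose m a
  rw [Nat.ascFactorial_eq_prod_range] at h1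
  have h2 := congrArg (Nat.cast : ℕ → k) h1
  push_cast at h2
  rw [h2, add_comm m a]

lemma prod_choose {p n a : ℕ} (hpn : p * n = ℓ - 1) (hp : 1 < p) (ha : a < ℓ) :
    ∏ i ∈ Ico 1 p, (((a + i * a).choose a : ℕ) : k) =
      (p : k) ^ (p * a) * ∏ j ∈ Ico 1 p, (((a + j * n).choose a : ℕ) : k) := by
  have hℓ : ℓ.Prime := Fact.out
  have hpnk : (p : k) * (n : k) = -1 := by
    have h1 := congrArg (Nat.cast : ℕ → k) hpn
    push_cast [Nat.cast_sub hℓ.one_le] at h1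
    rw [CharP.cast_eq_zero k ℓ] at h1
    rw [h1]; ring
  have hA : ∀ f : ℕ → ℕ, f 0 = 0 → ((a.factorial : ℕ) : k) ^ p *
      ∏ i ∈ Ico 1 p, (((a + f i).choose a : ℕ) : k) =
        ∏ i ∈ range p, ∏ x ∈ range a, ((f i : k) + 1 + x) := by
    intro f hf
    rw [← prod_congr rfl (fun i _ => asc (f i) a), prod_mul_distrib, prod_const, card_range]
    congr 1
    rw [range_eq_Ico, prod_eq_prod_Ico_succ_bot (by omega : 0 < p), hf]
    simp
  have h1 := hA (fun i => i * a) (by simp)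
  have h2 := hA (fun i => i * n) (by simp)
  have h3 : ∏ i ∈ range p, ∏ x ∈ range a, (((i * a : ℕ) : k) + 1 + x) =
      ∏ m ∈ range (p * a), ((m : k) + 1) := by
    rw [prod_blocks]
    refine prod_congr rfl fun i _ => prod_congr rfl fun j _ => ?_
    push_cast; ring
  have h4 : (p : k) ^ (p * a) * ∏ i ∈ range p, ∏ x ∈ range a, (((i * n : ℕ) : k) + 1 + x) =
      ∏ m ∈ range (p * a), ((m : k) + 1) := by
    have h5 : (p : k) ^ (p * a) * ∏ i ∈ range p, ∏ x ∈ range a, (((i * n : ℕ) : k) + 1 + x) =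
        ∏ i ∈ range p, ∏ x ∈ range a, ((p : k) * (x + 1) - i) := by
      have h6 : (p : k) ^ (p * a) = ∏ i ∈ range p, ∏ x ∈ range a, (p : k) := by
        rw [prod_const, prod_const, card_range, card_range, ← pow_mul, mul_comm a p]
      rw [h6, ← prod_mul_distrib]
      refine prod_congr rfl fun i _ => ?_
      rw [← prod_mul_distrib]
      refine prod_congr rfl fun x _ => ?_
      push_cast
      linear_combination (i : k) * hpnk
    rw [h5, prod_comm, mul_comm p a, prod_blocks]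
    refine prod_congr rfl fun x _ => ?_
    rw [← prod_range_reflect]
    refine prod_congr rfl fun j hj => ?_
    rw [mem_range] at hj
    rw [show p - 1 - j = p - (1 + j) by omega, Nat.cast_sub (by omega)]
    push_cast; ring
  have h5 : ((a.factorial : ℕ) : k) ^ p ≠ 0 := pow_ne_zero _ (fact_ne ha)
  apply mul_left_cancel₀ h5
  rw [h1, h3, ← h4, ← h2]; ring

lemma sum_pow (i : ℕ) (hi : 0 < i) :
    ∑ x : ZMod ℓ, x ^ i = if ℓ - 1 ∣ i then -1 else 0 := by
  classical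
  have hℓ : ℓ.Prime := Fact.out
  have h1 := FiniteField.sum_pow_units (ZMod ℓ) i
  rw [ZMod.card] at h1
  rw [← h1]
  rw [← add_sum_erase _ _ (mem_univ (0 : ZMod ℓ)), zero_pow hi.ne', zero_add]
  symm
  apply sum_bij (fun (u : (ZMod ℓ)ˣ) _ => (u : ZMod ℓ))
  · intro u _
    rw [mem_erase]; exact ⟨u.ne_zero, mem_univ _⟩
  · intro u _ v _ h; exact Units.ext h
  · intro x hx
    rw [mem_erase] at hx
    exact ⟨Units.mk0 x hx.1, mem_univ _, rfl⟩
  · intro u _
    rfl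

lemma sum_beta {a b : ℕ} (ha : 0 < a) (hb : 0 < b) (hab : a + b < ℓ - 1) :
    ∑ x : ZMod ℓ, x ^ (ℓ - 1 - a) * (1 - x) ^ (ℓ - 1 - b) = - (((a + b).choose a : ℕ) : ZMod ℓ) := by
  have hℓ : ℓ.Prime := Fact.out
  have h1 : ∀ x : ZMod ℓ, x ^ (ℓ - 1 - a) * (1 - x) ^ (ℓ - 1 - b) =
      ∑ j ∈ range (ℓ - 1 - b + 1), (((ℓ - 1 - b).choose j : ℕ) : ZMod ℓ) * (-1) ^ j *
        x ^ (ℓ - 1 - a + j) := by
    intro x
    rw [show (1 - x) = (-x) + 1 by ring, add_pow, mul_sum]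
    refine sum_congr rfl fun j _ => ?_
    rw [one_pow, pow_add, neg_pow]; ring
  rw [sum_congr rfl fun x _ => h1 x, sum_comm]
  have h2 : ∀ j ∈ range (ℓ - 1 - b + 1), ∑ x : ZMod ℓ, (((ℓ - 1 - b).choose j : ℕ) : ZMod ℓ) *
      (-1) ^ j * x ^ (ℓ - 1 - a + j) =
      if j = a then -((((ℓ - 1 - b).choose a : ℕ) : ZMod ℓ) * (-1) ^ a) else 0 := by
    intro j hj
    rw [mem_range] at hj
    rw [← mul_sum, sum_pow _ (by omega)]
    by_cases hja : j = a
    · rw [if_pos hja, if_pos, hja]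
      · ring
      · rw [hja, Nat.sub_add_cancel (by omega)]
    · rw [if_neg hja, if_neg, mul_zero]
      intro hd
      obtain ⟨c, hc⟩ := hd
      have h3 : c = 1 := by
        have h4 : ℓ - 1 - a + j < (ℓ - 1) * 2 := by omega
        rw [hc] at h4
        have h5 : c < 2 := lt_of_mul_lt_mul_left h4 (Nat.zero_le _)
        have h6 : c ≠ 0 := by
          rintro rfl
          omega
        omega
      rw [h3] at hc
      omega
  rw [sum_congr rfl h2, sum_ite_eq' (range (ℓ - 1 - b + 1)) a, if_pos (by rw [mem_range]; omega)]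
  congr 1
  have h3 : ((a.factorial : ℕ) : ZMod ℓ) ≠ 0 := fact_ne (by omega)
  apply mul_left_cancel₀ h3
  rw [asc b a]
  have h4 := Nat.descFactorial_eq_factorial_mul_choose (ℓ - 1 - b) a
  rw [Nat.descFactorial_eq_prod_range] at h4
  have h5 := congrArg (Nat.cast : ℕ → ZMod ℓ) h4
  rw [Nat.cast_mul, Nat.cast_prod] at h5
  rw [← mul_assoc, ← h5]
  have h6 : ((-1 : ZMod ℓ)) ^ a = ∏ x ∈ range a, (-1 : ZMod ℓ) := by
    rw [prod_const, card_range]
  rw [h6, ← prod_mul_distrib]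
  refine prod_congr rfl fun x hx => ?_
  rw [mem_range] at hx
  rw [show ℓ - 1 - b - x = ℓ - (1 + b + x) by omega, Nat.cast_sub (by omega)]
  push_cast
  rw [CharP.cast_eq_zero (ZMod ℓ) ℓ]
  ring

variable (φ : AI →+* k) {ω : MulChar (ZMod ℓ) AI}
  (hωφ : ∀ x : ZMod ℓ, x ≠ 0 → φ (ω x) * (ZMod.castHom (dvd_refl ℓ) k x) = 1)

include hωφ in
lemma red_pow {a : ℕ} (ha : a < ℓ - 1) (x : ZMod ℓ) :
    φ ((ω ^ a) x) = ZMod.castHom (dvd_refl ℓ) k (x ^ (ℓ - 1 - a)) := by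
  have hℓ : ℓ.Prime := Fact.out
  by_cases hx : x = 0
  · rw [hx, MulChar.map_zero, map_zero, zero_pow (by omega), map_zero]
  · rw [mulChar_pow_apply ω a hx, map_pow]
    have h1 := hωφ x hx
    have h2 : ZMod.castHom (dvd_refl ℓ) k (x ^ (ℓ - 1 - a)) *
        (ZMod.castHom (dvd_refl ℓ) k x) ^ a = 1 := by
      rw [← map_pow, ← map_mul, ← pow_add, Nat.sub_add_cancel ha.le,
        ZMod.pow_card_sub_one_eq_one hx, map_one]
    have h3 : φ (ω x) ^ a * (ZMod.castHom (dvd_refl ℓ) k x) ^ a = 1 := by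
      rw [← mul_pow, h1, one_pow]
    have h4 : (ZMod.castHom (dvd_refl ℓ) k x) ^ a ≠ 0 := by
      intro h0
      rw [h0, mul_zero] at h3
      exact zero_ne_one h3
    exact mul_right_cancel₀ h4 (h3.trans h2.symm)

include hωφ in
lemma red_jacobi {a b : ℕ} (ha : 0 < a) (hb : 0 < b) (hab : a + b < ℓ - 1) :
    φ (jacobiSum (ω ^ a) (ω ^ b)) = - (((a + b).choose a : ℕ) : k) := by
  have h1 : φ (jacobiSum (ω ^ a) (ω ^ b)) = ZMod.castHom (dvd_refl ℓ) k
      (∑ x : ZMod ℓ, x ^ (ℓ - 1 - a) * (1 - x) ^ (ℓ - 1 - b)) := by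
    unfold jacobiSum
    rw [map_sum, map_sum]
    refine sum_congr rfl fun x _ => ?_
    rw [map_mul, map_mul, red_pow φ hωφ (by omega), red_pow φ hωφ (by omega)]
  rw [h1, sum_beta ha hb hab, map_neg, map_natCast]

include hωφ in
theorem red_main {p n a : ℕ} (hpn : p * n = ℓ - 1) (hp : 1 < p) (hpℓ : p < ℓ) (ha : 0 < a)
    (han : a < n) :
    φ (∏ j ∈ Ico 1 p, jacobiSum (ω ^ a) (ω ^ (j * n))) ≠ 0 ∧
    φ (∏ i ∈ Ico 1 p, jacobiSum (ω ^ a) (ω ^ (i * a))) * φ ((ω ^ (p * a)) (p : ZMod ℓ)) =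
      φ (∏ j ∈ Ico 1 p, jacobiSum (ω ^ a) (ω ^ (j * n))) := by
  have hℓ : ℓ.Prime := Fact.out
  have hpa : p * a < ℓ - 1 := by
    rw [← hpn]; exact Nat.mul_lt_mul_of_pos_left han (by omega)
  have hbj : ∀ j ∈ Ico 1 p, a + j * n < ℓ - 1 := by
    intro j hj
    rw [mem_Ico] at hj
    have h5 : (j + 1) * n ≤ p * n := Nat.mul_le_mul_right n (by omega)
    have h6 : (j + 1) * n = j * n + n := by ring
    omega
  have hai : ∀ i ∈ Ico 1 p, a + i * a < ℓ - 1 := by
    intro i hi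
    rw [mem_Ico] at hi
    have h5 : (i + 1) * a ≤ p * a := Nat.mul_le_mul_right a (by omega)
    have h6 : (i + 1) * a = i * a + a := by ring
    omega
  have hB : φ (∏ j ∈ Ico 1 p, jacobiSum (ω ^ a) (ω ^ (j * n))) =
      ∏ j ∈ Ico 1 p, (-(((a + j * n).choose a : ℕ) : k)) := by
    rw [map_prod]
    refine prod_congr rfl fun j hj => ?_
    have := mem_Ico.mp hj
    exact red_jacobi φ hωφ ha (Nat.mul_pos (by omega) (by omega)) (hbj j hj)
  have hA : φ (∏ i ∈ Ico 1 p, jacobiSum (ω ^ a) (ω ^ (i * a))) =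
      ∏ i ∈ Ico 1 p, (-(((a + i * a).choose a : ℕ) : k)) := by
    rw [map_prod]
    refine prod_congr rfl fun i hi => ?_
    have := mem_Ico.mp hi
    exact red_jacobi φ hωφ ha (Nat.mul_pos (by omega) (by omega)) (hai i hi)
  constructor
  · rw [hB, prod_ne_zero_iff]
    intro j hj
    rw [Ne, neg_eq_zero]
    exact choose_ne (by have := hbj j hj; omega)
  · have hneg : ∀ f : ℕ → k, ∏ i ∈ Ico 1 p, (-(f i)) = (-1) ^ (p - 1) * ∏ i ∈ Ico 1 p, f i := by
      intro f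
      rw [prod_neg, Nat.card_Ico]
    have haℓ : a < ℓ := by
      have : 1 * a ≤ p * a := Nat.mul_le_mul_right a (by omega)
      omega
    rw [hA, hB, hneg, hneg, prod_choose (k := k) hpn hp haℓ]
    have hp0 : (p : ZMod ℓ) ≠ 0 := by
      rw [Ne, CharP.cast_eq_zero_iff (ZMod ℓ) ℓ]
      intro h
      have := Nat.le_of_dvd (by omega) h
      omega
    have h1 := hωφ _ hp0
    have h2 : φ ((ω ^ (p * a)) (p : ZMod ℓ)) * (p : k) ^ (p * a) = 1 := by
      rw [mulChar_pow_apply ω (p * a) hp0, map_pow, ← mul_pow]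
      have h3 : ZMod.castHom (dvd_refl ℓ) k (p : ZMod ℓ) = (p : k) := map_natCast _ _
      rw [h3] at h1
      rw [h1, one_pow]
    linear_combination ((-1) ^ (p - 1) * ∏ j ∈ Ico 1 p, (((a + j * n).choose a : ℕ) : k)) * h2

end Red

end Pool.Agent.Q275.RS
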